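import Pool.Agent.H82.DV.Core
import Pool.Agent.H18.DV.Ex
import Pool.Agent.H35.FF.Jo

/-!
# The model of the Cassels - Swinnerton-Dyer question over every finite field is false

`F` is a finite field, `LaurentSeries F` is the field `F((1/X))` (its variable is `1/X`, and
`|f| = q ^ (- order f)` where `q` is the number of elements of `F`), `ei F : F[X] → F((1/X))` is the
embedding, `psi F e` is the substitution `1/X ↦ (1/X)^e`, so that the matrices
`Y.1.map (psi F e)` are the elements of `GL_d (F((X^(-e))))`. `form g` is the product of the linear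
forms given by the rows of `g`; `BddBy C g` says that this product is `≥ q ^ (-C)` in absolute value
on `F[X]^d - {0}`.
-/

set_option autoImplicit false

open Polynomial

namespace Pool.Agent.Results.MP_edeaa2_an.EveryFiniteField

open Pool.Agent.H82.DV

/-- Let `F` be a finite field with `q` elements and `d ≥ 2`. There is a constant `κ`, and one may
take `κ = 4` if `q` is odd and `d = 4`, such that for every sequence `f` of polynomials there is
`g ∈ GL_d (F((1/X)))` with the following properties: the product `P` of the linear forms given by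
the rows of `g` satisfies `|P(x)| ≥ q ^ (-κ) |det g|` for all nonzero `x ∈ F[X]^d`, it is not
proportional to a form with coefficients in `F[X]`, and it is not equivalent (factor in `F((1/X))`,
linear change of variables in `GL_d (F[X])`) to any member of the sequence.

Moreover there are `e ≥ 1` and `g₀ ∈ GL_d (F((1/X)))` such that for every
`Y ∈ GL_d (F((X^(-e))))` the product of the linear forms given by the rows of `Y g₀` is bounded away
from zero on `F[X]^d - {0}`, and for every sequence `f` some of these products are not proportional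
to a form over `F[X]` and not equivalent to any member of the sequence. -/
theorem result (F : Type) [Field F] [Finite F] (d : ℕ) (hd : 2 ≤ d) :
    (∃ κ : ℤ, (ringChar F ≠ 2 → d = 4 → κ = 4) ∧
      ∀ f : ℕ → MvPolynomial (Fin d) (LaurentSeries F),
        ∃ g : GL (Fin d) (LaurentSeries F), BddBy (g.1.det.order + κ) g.1 ∧
          ¬ Integral (form g.1) ∧ ∀ n, ¬ Equivalent (form g.1) (f n)) ∧
    ∃ (e : ℕ) (_ : NeZero e) (g₀ : GL (Fin d) (LaurentSeries F)),
      (∀ Y : GL (Fin d) (LaurentSeries F), ∃ C : ℤ, BddBy C (Y.1.map (psi F e) * g₀.1)) ∧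
      ∀ f : ℕ → MvPolynomial (Fin d) (LaurentSeries F),
        ∃ Y : GL (Fin d) (LaurentSeries F),
          ¬ Integral (form (Y.1.map (psi F e) * g₀.1)) ∧
          ∀ n, ¬ Equivalent (form (Y.1.map (psi F e) * g₀.1)) (f n) := by
  obtain ⟨L, hL, hA, ⟨D⟩⟩ := Pool.Agent.H18.DV.exists_data F d (by omega)
  obtain ⟨e, he, g₀, h1, C, h2⟩ := core D hd
  refine ⟨?_, e, he, g₀, h1, fun f => ?_⟩
  · by_cases hc : ringChar F ≠ 2 ∧ d = 4
    · obtain ⟨h3, rfl⟩ := hc
      exact ⟨4, fun _ _ => rfl, fun f => Pool.Agent.H35.FF.clauseC F h3 f⟩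
    · refine ⟨C - g₀.1.det.order, fun h3 h4 => absurd ⟨h3, h4⟩ hc, fun f => ?_⟩
      obtain ⟨Y, hY, -, hY1, hY2, hY3⟩ := h2 f
      have hdet : (Y.1.map (psi F e) * g₀.1).det = g₀.1.det := by
        have h5 : (Y.1.map (psi F e)).det = 1 := by
          have h6 : (Y.1.map (psi F e)).det = psi F e Y.1.det := (RingHom.map_det _ _).symm
          rw [h6, hY, map_one]
        rw [Matrix.det_mul, h5, one_mul]
      have hdet0 : (Y.1.map (psi F e) * g₀.1).det ≠ 0 := by
        rw [hdet]
        exact (Matrix.isUnit_iff_isUnit_det _).1 g₀.isUnit |>.ne_zero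
      refine ⟨Matrix.GeneralLinearGroup.mkOfDetNeZero _ hdet0, ?_, hY2, hY3⟩
      show BddBy ((Y.1.map (psi F e) * g₀.1).det.order + (C - g₀.1.det.order))
        (Y.1.map (psi F e) * g₀.1)
      rw [hdet, add_sub_cancel]
      exact hY1
  · obtain ⟨Y, -, -, -, hY2, hY3⟩ := h2 f
    exact ⟨Y, hY2, hY3⟩

end Pool.Agent.Results.MP_edeaa2_an.EveryFiniteField
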