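import Pool.Agent.H49.SG.Four
import Pool.Agent.H49.SG.Five
import Pool.Agent.H49.SG.Six
import Pool.Agent.H49.SG.Norm4
import Pool.Agent.H49.SG.Norm5
import Pool.Agent.H49.SG.Norm6
import Pool.Agent.H49.SG.Classes
import Pool.Agent.H46.SB.Cond4
import Pool.Agent.H46.SB.Cond5
import Pool.Agent.H46.SB.Cond6

/-!
# Products of four, five and six linear forms: large minima come only from integral forms

If the product of `d` real linear forms is not proportional to a form with integer coefficients, the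
closure of the orbit of the lattice contains a lattice and its image under an elementary unipotent
matrix (Cassels and Swinnerton-Dyer isolation).  A linear programming bound for such pairs of lattices
(Poisson summation for a polynomial in two squared coordinates times a Gaussian, averaged over the
diagonal group; the sign conditions for the kernels are checked with certified tables) gives the values
`1 / 31.58`, `1 / 123.3`, `1 / 564` in dimensions 4, 5, 6.  They are smaller than the normalised minima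
`1 / √725`, `1 / 121`, `1 / √300125` of the norm forms of the totally real fields of least
discriminant.
-/

namespace Pool.Agent.Results.MP_edeaa2_an.ExtremalIntegral

/-- The value at `x` of the product of the linear forms given by the rows of `g`. -/
def form {d : ℕ} (g : Matrix (Fin d) (Fin d) ℝ) (x : Fin d → ℝ) : ℝ :=
  ∏ i : Fin d, ∑ j : Fin d, g i j * x j

/-- The product of the linear forms given by the rows of `g` is proportional to a form with integer
coefficients. -/
def Integral {d : ℕ} (g : Matrix (Fin d) (Fin d) ℝ) : Prop :=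
  ∃ κ : ℝ, κ ≠ 0 ∧ ∀ m : Fin d →₀ ℕ, ∃ z : ℤ,
    MvPolynomial.coeff m (κ • (∏ i : Fin d, ∑ j : Fin d,
      MvPolynomial.C (g i j) * MvPolynomial.X j : MvPolynomial (Fin d) ℝ)) = (z : ℝ)

/-- The rows of `g` are independent and the normalised minimum of their product is at least `c`. -/
def AtLeast {d : ℕ} (c : ℝ) (g : Matrix (Fin d) (Fin d) ℝ) : Prop :=
  g.det ≠ 0 ∧ ∀ x : Fin d → ℤ, x ≠ 0 → c * |g.det| ≤ |form g (fun j => (x j : ℝ))|

/-- The products given by `g` and by `h` differ by an integral unimodular change of variables and a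
nonzero real factor. -/
def Equivalent {d : ℕ} (g h : Matrix (Fin d) (Fin d) ℝ) : Prop :=
  ∃ (U : (Matrix (Fin d) (Fin d) ℤ)ˣ) (κ : ℝ), κ ≠ 0 ∧ ∀ x : Fin d → ℝ,
    form g x = κ * form h (fun j => ∑ k : Fin d, ((U : Matrix (Fin d) (Fin d) ℤ) j k : ℝ) * x k)

/-- No product of `d` independent linear forms has a larger normalised minimum than that of `g`. -/
def Extremal {d : ℕ} (g : Matrix (Fin d) (Fin d) ℝ) : Prop :=
  g.det ≠ 0 ∧ ∀ (h : Matrix (Fin d) (Fin d) ℝ) (c : ℝ), AtLeast c h → AtLeast c g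

/-- All products of `d` independent forms with normalised minimum at least `1 / B` are proportional
to integral forms and lie in finitely many classes; one of them has normalised minimum at least
`1 / D`; extremal products exist, and all of them are proportional to integral forms. -/
def Holds (d : ℕ) (B D : ℝ) : Prop :=
  (∃ S : Finset (Matrix (Fin d) (Fin d) ℝ), ∀ g : Matrix (Fin d) (Fin d) ℝ,
    AtLeast (1 / B) g → Integral g ∧ ∃ h ∈ S, Equivalent g h) ∧
  (∃ g : Matrix (Fin d) (Fin d) ℝ, Integral g ∧ AtLeast (1 / D) g) ∧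
  (∃ g : Matrix (Fin d) (Fin d) ℝ, Extremal g) ∧
  ∀ g : Matrix (Fin d) (Fin d) ℝ, Extremal g → Integral g

theorem core {d : ℕ} (hd : 3 ≤ d) {B D : ℝ} (hD : 0 < D) (hDB : D ≤ B)
    (h : ∀ g : Matrix (Fin d) (Fin d) ℝ, g.det ≠ 0 → (¬ ∃ κ : ℝ, κ ≠ 0 ∧ ∀ m : Fin d →₀ ℕ, ∃ z : ℤ,
      MvPolynomial.coeff m (κ • (∏ i : Fin d, ∑ j : Fin d,
        MvPolynomial.C (g i j) * MvPolynomial.X j : MvPolynomial (Fin d) ℝ)) = (z : ℝ)) →
      ∃ x : Fin d → ℤ, x ≠ 0 ∧ |∏ i : Fin d, ∑ j : Fin d, g i j * (x j : ℝ)| < |g.det| / B)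
    (g0 : Matrix (Fin d) (Fin d) ℝ) (h1 : g0.det ≠ 0) (h2 : |g0.det| = D)
    (h3 : ∃ κ : ℝ, κ ≠ 0 ∧ ∀ m : Fin d →₀ ℕ, ∃ z : ℤ,
      MvPolynomial.coeff m (κ • (∏ i : Fin d, ∑ j : Fin d,
        MvPolynomial.C (g0 i j) * MvPolynomial.X j : MvPolynomial (Fin d) ℝ)) = (z : ℝ))
    (h4 : ∀ x : Fin d → ℤ, x ≠ 0 → 1 ≤ |∏ i : Fin d, ∑ j : Fin d, g0 i j * (x j : ℝ)|) :
    Holds d B D := by
  have hA : Pool.Agent.Results.MP_edeaa2_an.FiniteOrUncountable.AtLeast (1 / D) g0 := by
    refine ⟨h1, fun x hx => ?_⟩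
    rw [h2, one_div, inv_mul_cancel₀ hD.ne']
    exact h4 x hx
  obtain ⟨⟨S, -, hS⟩, ⟨g1, h5, h6⟩, h7⟩ := H49.SG.summary hd (B := B) (D := D)
    (hD.trans_le hDB) hD hDB h g0 hA
  exact ⟨⟨S, hS⟩, ⟨g0, h3, hA⟩, ⟨g1, h5, h6⟩, fun g hg => h7 g hg.1 hg.2⟩

/-- dimensions four, five and six -/
theorem result : Holds 4 31.58 √725 ∧ Holds 5 123.3 121 ∧ Holds 6 564 √300125 := by
  refine ⟨?_, ?_, ?_⟩
  · obtain ⟨g0, h1, h2, h3, h4⟩ := H49.SG.norm4
    have hs : √(725 : ℝ) ≤ 31.58 := by
      rw [Real.sqrt_le_left (by norm_num)]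
      norm_num
    exact core (by norm_num) (by positivity) hs
      (fun g hg hni => H49.SG.bound4 H46.SB.cond4 g hg hni) g0 h1 h2 h3 h4
  · obtain ⟨g0, h1, h2, h3, h4⟩ := H49.SG.norm5
    exact core (by norm_num) (by norm_num) (by norm_num)
      (fun g hg hni => H49.SG.bound5 H46.SB.cond5 g hg hni) g0 h1 h2 h3 h4
  · obtain ⟨g0, h1, h2, h3, h4⟩ := H49.SG.norm6
    have hs : √(300125 : ℝ) ≤ 564 := by
      rw [Real.sqrt_le_left (by norm_num)]
      norm_num
    exact core (by norm_num) (by positivity) hs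
      (fun g hg hni => H49.SG.bound6 H46.SB.cond6 g hg hni) g0 h1 h2 h3 h4

end Pool.Agent.Results.MP_edeaa2_an.ExtremalIntegral
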