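import Pool.Agent.H16.Dav.Final

/-!
# The product of four real linear forms: the first minimum and its isolation

Let `F` be a product of four linearly independent real linear forms in four variables with
determinant `Δ`.  Either the normalised minimum of `F` is at most `1/27`, or `F` is, up to a factor
and an integral unimodular change of variables, the norm form of the ring `ℤ[ρ]`,
`ρ^4 - ρ^3 - 3ρ^2 + ρ + 1 = 0`, of discriminant `725`, whose normalised minimum is `1/√725`.
-/

namespace Pool.Agent.Results.MP_edeaa2_an.FourForms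

open Matrix

/-- The companion matrix of `X^4 - X^3 - 3X^2 + X + 1`. -/
def companion : Matrix (Fin 4) (Fin 4) ℤ :=
  !![0, 0, 0, -1; 1, 0, 0, -1; 0, 1, 0, 3; 0, 0, 1, 1]

/-- The norm form of `ℤ[ρ]`, `ρ` a root of `X^4 - X^3 - 3X^2 + X + 1`: the determinant of
multiplication by `y 0 + y 1 ρ + y 2 ρ^2 + y 3 ρ^3`. -/
def normForm {R : Type*} [CommRing R] (y : Fin 4 → R) : R :=
  (∑ j : Fin 4, y j • (companion ^ (j : ℕ)).map (Int.cast : ℤ → R)).det

theorem normForm_map {R S : Type*} [CommRing R] [CommRing S] (f : R →+* S) (y : Fin 4 → R) :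
    f (normForm y) = normForm fun i => f (y i) := by
  unfold normForm
  rw [RingHom.map_det]
  congr 1
  ext a b
  simp only [RingHom.mapMatrix_apply, Matrix.map_apply, Matrix.sum_apply, Matrix.smul_apply,
    smul_eq_mul, map_sum, map_mul, map_intCast]

theorem normForm_int (y : Fin 4 → ℤ) :
    normForm y = (∑ j : Fin 4, y j • companion ^ (j : ℕ)).det := by
  unfold normForm
  congr 1

/-- Let `g` be a real invertible `4 × 4` matrix and `F` the product of the linear forms given by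
its rows.  Either `F` is a constant `κ`, `|κ| = |det g| / √725`, times the norm form of `ℤ[ρ]`
after an integral unimodular substitution (so that `κ⁻¹ F` has integer coefficients), and `|κ|` is
the minimum of `|F|` over the nonzero integer vectors; or for every `c > 1 / 27` there is a nonzero
integer vector `x` with `|F x| < c |det g|`. -/
theorem result (g : Matrix (Fin 4) (Fin 4) ℝ) (hg : g.det ≠ 0) :
    (∃ (κ : ℝ) (W : Matrix (Fin 4) (Fin 4) ℤ), (W.det = 1 ∨ W.det = -1) ∧
        |κ| = |g.det| / √725 ∧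
        (∀ x : Fin 4 → ℝ, ∏ i : Fin 4, ∑ j : Fin 4, g i j * x j =
          κ * normForm fun i => ∑ j : Fin 4, (W i j : ℝ) * x j) ∧
        (∀ m : Fin 4 →₀ ℕ, ∃ z : ℤ,
          MvPolynomial.coeff m
            (κ⁻¹ • (∏ i : Fin 4, ∑ j : Fin 4,
              MvPolynomial.C (g i j) * MvPolynomial.X j : MvPolynomial (Fin 4) ℝ)) = (z : ℝ)) ∧
        (∀ x : Fin 4 → ℤ, x ≠ 0 → |κ| ≤ |∏ i : Fin 4, ∑ j : Fin 4, g i j * (x j : ℝ)|) ∧
        (∃ x : Fin 4 → ℤ, x ≠ 0 ∧ |∏ i : Fin 4, ∑ j : Fin 4, g i j * (x j : ℝ)| = |κ|)) ∨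
      (∀ c : ℝ, 1 / 27 < c → ∃ x : Fin 4 → ℤ, x ≠ 0 ∧
        |∏ i : Fin 4, ∑ j : Fin 4, g i j * (x j : ℝ)| < c * |g.det|) := by
  by_cases hB : ∀ c : ℝ, 1 / 27 < c → ∃ x : Fin 4 → ℤ, x ≠ 0 ∧
      |∏ i : Fin 4, ∑ j : Fin 4, g i j * (x j : ℝ)| < c * |g.det|
  · exact Or.inr hB
  left
  push Not at hB
  obtain ⟨c, hc, hpos⟩ := hB
  obtain ⟨κ, W, hκ, hW, hF, hmin, hatt⟩ := Pool.Agent.H16.Dav.main_thm g hg c hc hpos
  have hκ0 : κ ≠ 0 := by
    intro h
    rw [h, abs_zero, eq_comm, div_eq_zero_iff] at hκ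
    rcases hκ with h1 | h1
    · exact hg (abs_eq_zero.1 h1)
    · have : (0 : ℝ) < √725 := by positivity
      linarith
  -- the integral polynomial
  set N : MvPolynomial (Fin 4) ℤ :=
    normForm fun i => ∑ j : Fin 4, MvPolynomial.C (W i j) * MvPolynomial.X j with hN
  set NR : MvPolynomial (Fin 4) ℝ := MvPolynomial.map (Int.castRingHom ℝ) N with hNR
  set Fg : MvPolynomial (Fin 4) ℝ := ∏ i : Fin 4, ∑ j : Fin 4,
    MvPolynomial.C (g i j) * MvPolynomial.X j with hFg
  have hevR : ∀ x : Fin 4 → ℝ, MvPolynomial.eval x NR =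
      normForm fun i => ∑ j : Fin 4, (W i j : ℝ) * x j := by
    intro x
    rw [hNR, MvPolynomial.eval_map, hN]
    have := normForm_map (MvPolynomial.eval₂Hom (Int.castRingHom ℝ) x)
      (fun i => ∑ j : Fin 4, MvPolynomial.C (W i j) * MvPolynomial.X j)
    rw [MvPolynomial.coe_eval₂Hom] at this
    rw [this]
    congr 1
    funext i
    rw [MvPolynomial.eval₂_sum]
    refine Finset.sum_congr rfl fun j _ => ?_
    rw [MvPolynomial.eval₂_mul, MvPolynomial.eval₂_C, MvPolynomial.eval₂_X]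
    rfl
  have hevF : ∀ x : Fin 4 → ℝ, MvPolynomial.eval x Fg = ∏ i : Fin 4, ∑ j : Fin 4, g i j * x j := by
    intro x
    simp [hFg]
  have hpoly : Fg = MvPolynomial.C κ * NR := by
    apply MvPolynomial.funext_set (fun _ => Set.range (Int.cast : ℤ → ℝ))
    · intro i
      exact Set.infinite_range_of_injective Int.cast_injective
    · intro x hx
      have hx' : ∀ i, ∃ n : ℤ, (n : ℝ) = x i := fun i => hx i (Set.mem_univ i)
      choose n hn using hx'
      have hxn : x = fun i => (n i : ℝ) := funext fun i => (hn i).symm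
      rw [map_mul, MvPolynomial.eval_C, hevR, hevF, hxn]
      rw [hF n]
      congr 1
      have h1 := normForm_map (Int.castRingHom ℝ) (W *ᵥ n)
      rw [normForm_int] at h1
      have h2 : (∑ j : Fin 4, (W *ᵥ n) j • companion ^ (j : ℕ)) =
          ∑ j : Fin 4, (W *ᵥ n) j • Pool.Agent.H16.Dav.comp4 ^ (j : ℕ) := rfl
      rw [← h2]
      rw [eq_intCast] at h1
      rw [h1]
      congr 1
      funext i
      simp [Matrix.mulVec, dotProduct]
  refine ⟨κ, W, hW, hκ, ?_, ?_, ?_, ?_⟩
  · intro x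
    rw [← hevF, ← hevR, hpoly, map_mul, MvPolynomial.eval_C]
  · intro m
    refine ⟨MvPolynomial.coeff m N, ?_⟩
    rw [hpoly, MvPolynomial.smul_eq_C_mul, ← mul_assoc, ← map_mul, inv_mul_cancel₀ hκ0,
      map_one, one_mul, hNR, MvPolynomial.coeff_map]
    rfl
  · intro x hx
    rw [hκ]
    exact hmin x hx
  · obtain ⟨x, hx, h⟩ := hatt
    exact ⟨x, hx, by rw [h, hκ]⟩

end Pool.Agent.Results.MP_edeaa2_an.FourForms
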