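import Mathlib
import Pool.Agent.H46.AB.Row
import Pool.Agent.H46.IS.Exa

/-!
# Products of linear forms: the structure of a counterexample to Q1

Let `d ≥ 3` and let `F` be the product of the linear forms given by the rows of an invertible real
matrix `g`.  Suppose that `F` is not proportional to an integral form and that `|F| ≥ c |det g|` at
the nonzero integer vectors (a counterexample to Q1).  Let `Om g` be the closure of the orbit of the
lattice `g ℤ ^ d` under the diagonal matrices (normalised by `|det| = |det g|`).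

* No row of a `g' ∈ Om g` is a real multiple of a vector with entries in a number field of degree at
  most `d`: Q1 holds for every `F` with one such factor, the other factors being arbitrary. More
  generally, no `g' ∈ Om g` has a block of rows with the span of the vectors `σ (w)`, `σ ∈ T`,
  `w ∈ K ^ d`, `K` a number field of degree at most `d`, `T` not a union of classes of embeddings
  with the same restriction to a proper totally real subfield.
* There is a diagonal automorph `b` of the lattice of `g` such that all diagonal automorphs are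
  constant on the level sets of `b`; these level sets have the same size `n > 1`.  Let `m` be their
  number (`m = 1` if `g` has only the trivial automorph) and `m' = m`, but `m' = 2` if `m = 1` and `d`
  is even.  If `d` is odd or `m > 1` then all lattices in `Om g` have the automorphs of `g`; the
  automorphs of the lattices in `Om g` always have at most `m'` different entries.
* The values of `F` in `[-R |det g|, R |det g|]` contain `κ (log (1 / ε)) ^ (d - m')` points with
  distances at least `ε |det g|`, where `R` and `κ` depend only on `d` and `c`.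
* For every one-parameter group `exp (t w)` of diagonal matrices of determinant one for which `w` is
  not constant on the level sets of `b` every nonempty closed set of lattices in `Om g` which is
  invariant under the group contains a `w`-shear: a lattice `z` and `(1 + v) z`, `v ≠ 0`, with the
  nonzero entries of `v` at places expanded by the group; if `d` is even and `m = 1`, the `w` with two
  values `s`, `-s` are excepted.
* Every nonempty closed subset `Y` of `Om g` which is invariant under the positive diagonal matrices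
  of determinant one contains such a subset `Y'` and there is a common diagonal automorph `b'` of the
  lattices in `Y'` (`Y' = Y` and `b' = b` if `d` is odd or `m > 1`); `b'` has at most `m'` level sets, they
  have the same size `> 1`, `Y'` contains some `z` and `(1 + E_kl) z` if and only if `k` and `l` are in
  the same level set; and there are disjoint pairs of indices inside the level sets, which leave at
  most one index of each level set, and some `z` such that `Y'` contains `(1 + ∑ E_kl) z` for all sets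
  of these pairs.
-/

set_option autoImplicit false

namespace Pool.Agent.Results.MP_edeaa2_an.Rigidity

open Pool.Agent.H46.RG

/-- The product of the linear forms given by the rows of `g`. -/
def F {d : ℕ} (g : Matrix (Fin d) (Fin d) ℝ) (x : Fin d → ℤ) : ℝ :=
  ∏ i : Fin d, ∑ j : Fin d, g i j * (x j : ℝ)

/-- A nonzero real multiple of the product has integer coefficients. -/
def Integral {d : ℕ} (g : Matrix (Fin d) (Fin d) ℝ) : Prop :=
  ∃ s : ℝ, s ≠ 0 ∧ ∀ m : Fin d →₀ ℕ, ∃ z : ℤ,
    MvPolynomial.coeff m (s • (∏ i : Fin d, ∑ j : Fin d,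
      MvPolynomial.C (g i j) * MvPolynomial.X j : MvPolynomial (Fin d) ℝ)) = (z : ℝ)

/-- The diagonal automorphs (positive, of determinant one) of the lattice `z ℤ ^ d`. -/
def Auto {d : ℕ} (z : Matrix (Fin d) (Fin d) ℝ) : Set (Fin d → ℝ) :=
  {a | a ∈ A1 d ∧ ∃ U : Matrix (Fin d) (Fin d) ℤ, IsUnit U.det ∧
    Matrix.diagonal a * z = z * U.map (Int.cast : ℤ → ℝ)}

/-- All level sets of `b` have the same size, which is at least two. -/
def EqualLevels {d : ℕ} (b : Fin d → ℝ) : Prop :=
  ∃ n : ℕ, 2 ≤ n ∧ ∀ i, (Finset.univ.filter fun j => b j = b i).card = n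

/-- `b` is a diagonal automorph of `g`, and all of them are constant on the level sets of `b`. -/
def Separates {d : ℕ} (g : Matrix (Fin d) (Fin d) ℝ) (b : Fin d → ℝ) : Prop :=
  b ∈ Auto g ∧ ∀ a ∈ Auto g, ∀ i j, b i = b j → a i = a j

/-- The number of the level sets of `b`. -/
noncomputable def classes {d : ℕ} (b : Fin d → ℝ) : ℕ := (Finset.univ.image b).card

/-- The number of the level sets of `b`, but two if it is one and `d` is even. -/
noncomputable def classes' {d : ℕ} (b : Fin d → ℝ) : ℕ :=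
  if Even d then max 2 (classes b) else classes b

/-- `Z` contains a lattice `z` and `(1 + v) z`, `v ≠ 0`, the nonzero entries of `v` at places which are
expanded by `exp (t w)`. -/
def HasShear {d : ℕ} (w : Fin d → ℝ) (Z : Set (Matrix (Fin d) (Fin d) ℝ)) : Prop :=
  ∃ z ∈ Z, ∃ v : Matrix (Fin d) (Fin d) ℝ, v ≠ 0 ∧ (∀ a b, v a b ≠ 0 → w b < w a) ∧ (1 + v) * z ∈ Z

/-- The two descriptions of the automorphs agree. -/
theorem mem_Auto {d : ℕ} {z : Matrix (Fin d) (Fin d) ℝ} {a : Fin d → ℝ} :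
    a ∈ Auto z ↔ a ∈ A1 d ∧ Matrix.diagonal a ∈ Pool.Agent.H46.RU.Aut z := by
  constructor
  · rintro ⟨ha, U, hU, h⟩
    obtain ⟨V, hV⟩ := exists_unit hU
    refine ⟨ha, V, ?_⟩
    rw [hV]
    exact h
  · rintro ⟨ha, V, h⟩
    exact ⟨ha, V, isUnit_det_unit V, h⟩

theorem separates_iff {d : ℕ} {g : Matrix (Fin d) (Fin d) ℝ} {b : Fin d → ℝ} :
    Separates g b ↔ Pool.Agent.H46.IS.Sz g b := by
  constructor
  · rintro ⟨h1, h2⟩
    exact ⟨mem_Auto.1 h1, fun a ha => h2 a (mem_Auto.2 ha)⟩
  · rintro ⟨h1, h2⟩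
    exact ⟨mem_Auto.2 h1, fun a ha => h2 a (mem_Auto.1 ha)⟩

theorem classes'_eq {d : ℕ} (b : Fin d → ℝ) : classes' b = Pool.Agent.H46.IS.Mx b := rfl

theorem struc {d : ℕ} (hd : 3 ≤ d) {g : Matrix (Fin d) (Fin d) ℝ} (hg : g.det ≠ 0) {c : ℝ}
    (hc : 0 < c) (hp : Pool.Agent.H89.CSD.Pos c g) (hn : ¬ Pool.Agent.H89.CSD.IntForm g)
    {b : Fin d → ℝ} (hb : Separates g b)
    {Y : Set (Matrix (Fin d) (Fin d) ℝ)} (hY : Y ⊆ Om g) (hinv : IsInv (A1 d) Y) :
    ∃ Y' : Set (Matrix (Fin d) (Fin d) ℝ), Y' ⊆ Y ∧ IsInv (A1 d) Y' ∧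
      ∃ b' : Fin d → ℝ, (∀ z ∈ Y', b' ∈ Auto z) ∧ EqualLevels b' ∧ classes b' ≤ classes' b ∧
        (Odd d ∨ 2 ≤ classes b → Y' = Y ∧ b' = b) ∧
        (∀ k l : Fin d, k ≠ l →
          ((∃ z ∈ Y', (1 + Matrix.single k l (1 : ℝ)) * z ∈ Y') ↔ b' k = b' l)) ∧
        ∃ M : Finset (Fin d × Fin d), (∀ p ∈ M, p.1 ≠ p.2 ∧ b' p.1 = b' p.2) ∧
          (∀ p ∈ M, ∀ q ∈ M, p ≠ q → p.1 ≠ q.1 ∧ p.1 ≠ q.2 ∧ p.2 ≠ q.1 ∧ p.2 ≠ q.2) ∧
          (∀ i j : Fin d, i ≠ j → b' i = b' j →
            ∃ p ∈ M, i = p.1 ∨ i = p.2 ∨ j = p.1 ∨ j = p.2) ∧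
          ∃ z, ∀ Q ⊆ M, (1 + ∑ p ∈ Q, Matrix.single p.1 p.2 (1 : ℝ)) * z ∈ Y' := by
  obtain ⟨Y', hY', hinv', b', hb1, hb2, hcase, hMx, hb3, hb4, ⟨M, hM1, hM2, hM3, z, hz⟩, -⟩ :=
    Pool.Agent.H46.IS.structure_S hd hg hc hp hn (separates_iff.1 hb) hY hinv
  refine ⟨Y', hY', hinv', b', fun z hz => mem_Auto.2 ⟨hb1, hb2 z hz⟩, hb3, hMx, hcase, hb4,
    M, fun p hp => ⟨hM1.1 p hp, hM2 p hp⟩, hM1.2, ?_, z, hz⟩
  intro i j hij hbij
  rcases hM3 i j hij hbij with h | h
  · obtain ⟨p, hp, h'⟩ := Pool.Agent.H46.MM.mem_idx.1 h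
    rcases h' with h' | h'
    · exact ⟨p, hp, Or.inl h'⟩
    · exact ⟨p, hp, Or.inr (Or.inl h')⟩
  · obtain ⟨p, hp, h'⟩ := Pool.Agent.H46.MM.mem_idx.1 h
    rcases h' with h' | h'
    · exact ⟨p, hp, Or.inr (Or.inr (Or.inl h'))⟩
    · exact ⟨p, hp, Or.inr (Or.inr (Or.inr h'))⟩

theorem result (d : ℕ) (hd : 3 ≤ d) (c : ℝ) (hc : 0 < c) :
    ∃ R κ : ℝ, 0 < R ∧ 0 < κ ∧ ∀ g : Matrix (Fin d) (Fin d) ℝ, g.det ≠ 0 →
      (∀ x : Fin d → ℤ, x ≠ 0 → c * |g.det| ≤ |F g x|) → ¬ Integral g →
      -- no factor with coefficients in a number field of degree at most `d` in the closed orbit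
      (∀ g' ∈ Om g, ∀ (K : Type) [Field K] [NumberField K], Module.finrank ℚ K ≤ d →
          ∀ (σ : K →+* ℝ) (w : Fin d → K) (s : ℝ) (i : Fin d),
            (fun j => g' i j) ≠ fun j => s * σ (w j)) ∧
      -- no algebraic block in the closed orbit
      (∀ g' ∈ Om g, ∀ (K : Type) [Field K] [NumberField K], Module.finrank ℚ K ≤ d →
          ∀ (w : Fin d → K) (T : Set (K →+* ℂ)),
          (∀ L : Subfield K, NumberField.IsTotallyReal L →
            (∀ σ τ : K →+* ℂ, (∀ x ∈ L, σ x = τ x) → σ ∈ T → τ ∈ T) → L = ⊤) →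
          ∀ I : Set (Fin d), I.Nonempty →
            Submodule.span ℂ ((fun i j => (g' i j : ℂ)) '' I) ≠
              Submodule.span ℂ ((fun (σ : K →+* ℂ) j => σ (w j)) '' T)) ∧
      -- a diagonal automorph `b` which separates as much as possible
      (∃ b : Fin d → ℝ, Separates g b) ∧ ∀ b : Fin d → ℝ, Separates g b → EqualLevels b ∧
        -- the automorphs of the forms in the closed orbit
        (∀ z ∈ Om g, (Odd d ∨ 2 ≤ classes b → Auto z = Auto g) ∧
          ∀ a ∈ Auto z, classes a ≤ classes' b) ∧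
        -- at least `κ (log (1 / ε)) ^ (d - m')` separated values
        (∀ ε : ℝ, 0 < ε → ε < 1 → ∃ T : Finset (Fin d → ℤ),
          κ * Real.log (1 / ε) ^ (d - classes' b) ≤ T.card ∧
          (∀ x ∈ T, x ≠ 0 ∧ |F g x| ≤ R * |g.det|) ∧
          ∀ x ∈ T, ∀ y ∈ T, x ≠ y → ε * |g.det| ≤ |F g x - F g y|) ∧
        -- shears for the one-parameter groups which are not constant on the level sets of `b`
        (∀ w : Fin d → ℝ, ∑ i, w i = 0 → (∃ i j, b i = b j ∧ w i ≠ w j) →
          (Even d → classes b = 1 → ¬ ∃ s : ℝ, ∀ i, w i = s ∨ w i = -s) →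
          ∀ Z : Set (Matrix (Fin d) (Fin d) ℝ), Z ⊆ Om g →
          IsInv (Set.range fun (t : ℝ) (i : Fin d) => Real.exp (t * w i)) Z → HasShear w Z) ∧
        -- the invariant sets `Y` of the diagonal group
        ∀ Y : Set (Matrix (Fin d) (Fin d) ℝ), Y ⊆ Om g → IsInv (A1 d) Y →
          ∃ Y' : Set (Matrix (Fin d) (Fin d) ℝ), Y' ⊆ Y ∧ IsInv (A1 d) Y' ∧
            ∃ b' : Fin d → ℝ, (∀ z ∈ Y', b' ∈ Auto z) ∧ EqualLevels b' ∧
              classes b' ≤ classes' b ∧ (Odd d ∨ 2 ≤ classes b → Y' = Y ∧ b' = b) ∧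
              -- the root directions
              (∀ k l : Fin d, k ≠ l →
                ((∃ z ∈ Y', (1 + Matrix.single k l (1 : ℝ)) * z ∈ Y') ↔ b' k = b' l)) ∧
              -- disjoint pairs of indices, all products of their shears
              ∃ M : Finset (Fin d × Fin d), (∀ p ∈ M, p.1 ≠ p.2 ∧ b' p.1 = b' p.2) ∧
                (∀ p ∈ M, ∀ q ∈ M, p ≠ q → p.1 ≠ q.1 ∧ p.1 ≠ q.2 ∧ p.2 ≠ q.1 ∧ p.2 ≠ q.2) ∧
                (∀ i j : Fin d, i ≠ j → b' i = b' j →
                  ∃ p ∈ M, i = p.1 ∨ i = p.2 ∨ j = p.1 ∨ j = p.2) ∧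
                ∃ z, ∀ Q ⊆ M, (1 + ∑ p ∈ Q, Matrix.single p.1 p.2 (1 : ℝ)) * z ∈ Y' := by
  obtain ⟨R, κ, hR, hκ, h1⟩ := Pool.Agent.H46.IS.log_pow_S (d := d) hd hc
  refine ⟨R, κ, by linarith, hκ, ?_⟩
  intro g hg hlow hint
  have hdet : 0 < |g.det| := abs_pos.2 hg
  have hcg : 0 < c * |g.det| := mul_pos hc hdet
  have hclo : ∀ g' ∈ Om g, g' ∈ closure (H46.AF.Orb g) := by
    intro g' hg'
    refine closure_mono ?_ hg'.1
    rintro h ⟨a, -, γ, hγ, rfl⟩
    exact ⟨a, γ, hγ, rfl⟩
  have hset : ∀ z : Matrix (Fin d) (Fin d) ℝ, Auto z = Pool.Agent.H46.IS.LL z := fun z =>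
    Set.ext fun a => mem_Auto
  refine ⟨?_, ?_, ?_, ?_⟩
  · intro g' hg' K _ _ hK σ w s i hrow
    apply hint
    exact H46.AB.one_row d hd g g' hg (Om_det_ne hg hg') (hclo g' hg') K w hK σ s i
      (fun j => congrFun hrow j) (c * |g.det|) hcg hlow
  · intro g' hg' K _ _ hK w T hT I hI hblock
    apply hint
    exact H46.AB.main d hd g g' hg (Om_det_ne hg hg') (hclo g' hg') K w hK T hT I hI hblock
      (c * |g.det|) hcg hlow
  · obtain ⟨b, hb⟩ := Pool.Agent.H46.IS.exists_Sz g
    exact ⟨b, separates_iff.2 hb⟩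
  intro b hb
  have hb' := separates_iff.1 hb
  refine ⟨?_, ?_, fun ε h0 h1' => h1 g hg hlow hint b hb' ε h0 h1', ?_,
    fun Y hY hinv => struc hd hg hcg hlow hint hb hY hinv⟩
  · exact Pool.Agent.H46.RU.levels hd hg hcg hlow hint (Pool.Agent.H46.IS.self_mem_Om g) hb'.1.2
  · intro z hz
    refine ⟨fun hcase => ?_, fun a ha => ?_⟩
    · rw [hset z, hset g]
      exact Pool.Agent.H46.IS.LL_const hd hg hcg hlow hb' hcase hz
    · rw [hset z] at ha
      exact Pool.Agent.H46.IS.card_le_Mx hd hg hcg hlow hb' hz ha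
  · rintro w hw ⟨i, j, hij, hwij⟩ hex Z hZ hinv
    refine Pool.Agent.H46.IS.shear_S hd hg hcg hlow hb' hw hij hwij ?_ hZ hinv
    intro hev hcard
    apply hex hev
    have h3 : 0 < (Finset.univ.image b).card :=
      Finset.card_pos.2 ⟨b i, Finset.mem_image_of_mem _ (Finset.mem_univ _)⟩
    unfold classes
    omega

end Pool.Agent.Results.MP_edeaa2_an.Rigidity
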